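import Pool.Agent.Y522.NA.Stm
import Pool.Agent.Y522.Tools

/-!
# Project NA, the globalization: kernel facts, charts and transition maps
-/

set_option autoImplicit false

open Set Filter Topology Metric Function MeasureTheory
open scoped Manifold ContDiff

noncomputable section

namespace Pool.Agent.Y306.NAG

open Pool.Agent.Y522 Pool.Agent.Y522.NA

/-! ### the kernel -/

theorem kr_nonneg (n : ℕ) (s : E n) : 0 ≤ kr n s := (bmp n).nonneg_normed s

theorem kr_int (n : ℕ) : ∫ s, kr n s = 1 := (bmp n).integral_normed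

theorem kr_cont (n : ℕ) : Continuous (kr n) := (bmp n).continuous_normed

theorem kr_supp (n : ℕ) : support (kr n) = ball (0 : E n) 1 := by
  have := (bmp n).support_normed_eq (μ := (volume : Measure (E n)))
  simpa [kr, bmp] using this

theorem kr_zero {n : ℕ} {s : E n} (hs : 1 ≤ ‖s‖) : kr n s = 0 := by
  by_contra h
  have h1 : s ∈ support (kr n) := h
  rw [kr_supp] at h1
  simp at h1
  linarith

theorem kr_integrable (n : ℕ) : Integrable (kr n) := (bmp n).integrable_normed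

theorem int_smul_integrable {n q : ℕ} {h : E n → E q} (hc : ContinuousOn h (closedBall 0 1)) :
    Integrable (fun s => kr n s • h s) := by
  have h1 : IntegrableOn (fun s => kr n s • h s) (closedBall (0 : E n) 1) :=
    ((kr_cont n).continuousOn.smul hc).integrableOn_compact (isCompact_closedBall _ _)
  refine (integrableOn_iff_integrable_of_support_subset ?_).1 h1
  intro s hs
  by_contra hcon
  apply hs
  have h2 : 1 ≤ ‖s‖ := by
    simp at hcon
    linarith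
  simp [kr_zero h2]

theorem avg {n q : ℕ} {h : E n → E q} (hc : ContinuousOn h (closedBall 0 1)) {v : E q} {δ : ℝ}
    (hδ : ∀ s : E n, ‖s‖ ≤ 1 → ‖h s - v‖ ≤ δ) : ‖(∫ s, kr n s • h s) - v‖ ≤ δ := by
  have h1 : v = ∫ s, kr n s • v := by
    rw [integral_smul_const, kr_int, one_smul]
  have h2 : (∫ s, kr n s • h s) - v = ∫ s, kr n s • (h s - v) := by
    conv_lhs => rw [h1]
    rw [← integral_sub (int_smul_integrable hc) ((kr_integrable n).smul_const v)]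
    congr 1
    ext1 s
    rw [smul_sub]
  rw [h2]
  have h3 : ‖∫ s, kr n s • (h s - v)‖ ≤ ∫ s, kr n s * δ := by
    refine norm_integral_le_of_norm_le ((kr_integrable n).mul_const δ) ?_
    refine Eventually.of_forall fun s => ?_
    rw [norm_smul, Real.norm_eq_abs, abs_of_nonneg (kr_nonneg n s)]
    by_cases hs : ‖s‖ ≤ 1
    · exact mul_le_mul_of_nonneg_left (hδ s hs) (kr_nonneg n s)
    · rw [kr_zero (by linarith)]
      simp
  rwa [integral_mul_const, kr_int, one_mul] at h3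

/-! ### charts -/

/-- a bi-Lipschitz parametrization with an inverse -/
structure Ch (n : ℕ) (κ : ℝ) {X : Type} [MetricSpace X] [ChartedSpace (E n) X] (A : E n → X)
    (τ : X → E n) (r : ℝ) : Prop where
  pos : 0 < r
  ld : ∀ z : E n, ‖z‖ < r → LD n A z
  lip : BLip n κ r A
  inv : ∀ z : E n, ‖z‖ < r → τ (A z) = z

section

variable {n : ℕ} {κ : ℝ} {X : Type} [MetricSpace X] [ChartedSpace (E n) X]

theorem exists_ch {A : E n → X} (hA : LD n A 0) {ρ : ℝ} (hρ : 0 < ρ) (hl : BLip n κ ρ A) :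
    ∃ (τ : X → E n) (r : ℝ), r ≤ ρ ∧ Ch n κ A τ r := by
  obtain ⟨r0, hr0, hr⟩ := Metric.eventually_nhds_iff.1 hA.eventually
  have hinj : InjOn A (ball 0 (min r0 ρ)) := by
    intro p hp q hq hpq
    rw [mem_ball_zero_iff] at hp hq
    have h1 := (hl p q (lt_of_lt_of_le hp (min_le_right _ _))
      (lt_of_lt_of_le hq (min_le_right _ _))).1
    rw [hpq, dist_self, mul_zero] at h1
    exact sub_eq_zero.1 (norm_le_zero_iff.1 h1)
  refine ⟨invFunOn A (ball 0 (min r0 ρ)), min r0 ρ, min_le_right _ _, lt_min hr0 hρ, ?_, ?_, ?_⟩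
  · intro z hz
    apply hr
    rw [dist_zero_right]
    exact lt_of_lt_of_le hz (min_le_left _ _)
  · intro p q hp hq
    exact hl p q (lt_of_lt_of_le hp (min_le_right _ _)) (lt_of_lt_of_le hq (min_le_right _ _))
  · intro z hz
    exact hinj.leftInvOn_invFunOn (mem_ball_zero_iff.2 hz)

variable {A A' : E n → X} {τ τ' : X → E n} {r r' : ℝ}

theorem Ch.isOpen_image (h : Ch n κ A τ r) {s : ℝ} (hs : s ≤ r) : IsOpen (A '' ball 0 s) := by
  refine isOpen_image_of_LD (n := n) isOpen_ball ?_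
  intro z hz
  exact h.ld z (lt_of_lt_of_le (mem_ball_zero_iff.1 hz) hs)

theorem Ch.ldτ (h : Ch n κ A τ r) {z : E n} (hz : ‖z‖ < r) : LD n τ (A z) :=
  LD.inverse (U := ball 0 r) isOpen_ball (fun x hx => h.ld x (mem_ball_zero_iff.1 hx))
    (fun x hx => h.inv x (mem_ball_zero_iff.1 hx)) (mem_ball_zero_iff.2 hz)

theorem Ch.right (h : Ch n κ A τ r) {x : X} (hx : x ∈ A '' ball 0 r) : A (τ x) = x := by
  obtain ⟨z, hz, rfl⟩ := hx
  rw [h.inv z (mem_ball_zero_iff.1 hz)]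

theorem Ch.mem (h : Ch n κ A τ r) {s : ℝ} (hs : s ≤ r) {x : X} (hx : x ∈ A '' ball 0 s) :
    ‖τ x‖ < s ∧ A (τ x) = x := by
  obtain ⟨z, hz, rfl⟩ := hx
  rw [mem_ball_zero_iff] at hz
  rw [h.inv z (lt_of_lt_of_le hz hs)]
  exact ⟨hz, rfl⟩

theorem Ch.lip_aux (h : Ch n κ A τ r) (h' : Ch n κ A' τ' r') {z₀ : E n} (hz₀ : ‖z₀‖ < r)
    (hm : A z₀ ∈ A' '' ball 0 r') : ∀ᶠ z in 𝓝 z₀, ∀ᶠ z' in 𝓝 z,
      ‖τ' (A z') - τ' (A z)‖ ≤ κ ^ 2 * ‖z' - z‖ := by
  have h1 : ∀ᶠ z in 𝓝 z₀, ‖z‖ < r ∧ A z ∈ A' '' ball 0 r' := by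
    have h2 : ∀ᶠ z in 𝓝 z₀, ‖z‖ < r :=
      continuous_norm.continuousAt.eventually_lt continuousAt_const hz₀
    have h3 : ∀ᶠ z in 𝓝 z₀, A z ∈ A' '' ball 0 r' :=
      (h.ld z₀ hz₀).continuousAt.eventually_mem ((h'.isOpen_image le_rfl).mem_nhds hm)
    exact h2.and h3
  filter_upwards [h1.eventually_nhds] with z hz
  filter_upwards [hz] with z' hz'
  obtain ⟨hz1, hz2⟩ := hz.self_of_nhds
  obtain ⟨hz3, hz4⟩ := hz'
  obtain ⟨h5, h6⟩ := h'.mem le_rfl hz2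
  obtain ⟨h7, h8⟩ := h'.mem le_rfl hz4
  have h9 := (h'.lip _ _ h7 h5).1
  rw [h6, h8] at h9
  have h10 := (h.lip _ _ hz3 hz1).2
  rcases le_or_gt 0 κ with hκ | hκ
  · calc ‖τ' (A z') - τ' (A z)‖ ≤ κ * dist (A z') (A z) := h9
      _ ≤ κ * (κ * ‖z' - z‖) := mul_le_mul_of_nonneg_left h10 hκ
      _ = κ ^ 2 * ‖z' - z‖ := by ring
  · have h11 : κ * dist (A z') (A z) ≤ 0 := mul_nonpos_of_nonpos_of_nonneg hκ.le dist_nonneg
    have h12 : 0 ≤ κ ^ 2 * ‖z' - z‖ := by positivity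
    linarith

theorem Ch.inv_aux (h : Ch n κ A τ r) (h' : Ch n κ A' τ' r') {z₀ : E n} (hz₀ : ‖z₀‖ < r)
    (hm : A z₀ ∈ A' '' ball 0 r') : ∀ᶠ z in 𝓝 z₀, τ (A' (τ' (A z))) = z := by
  have h2 : ∀ᶠ z in 𝓝 z₀, ‖z‖ < r :=
    continuous_norm.continuousAt.eventually_lt continuousAt_const hz₀
  have h3 : ∀ᶠ z in 𝓝 z₀, A z ∈ A' '' ball 0 r' :=
    (h.ld z₀ hz₀).continuousAt.eventually_mem ((h'.isOpen_image le_rfl).mem_nhds hm)
  filter_upwards [h2, h3] with z hz hz'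
  rw [h'.right hz', h.inv z hz]

theorem Ch.trans (h : Ch n κ A τ r) (h' : Ch n κ A' τ' r') (hm : A 0 ∈ A' '' ball 0 r') :
    Trans n (κ ^ 2) (fun z => τ' (A z)) (fun w => τ (A' w)) (τ' (A 0)) := by
  have h0 : ‖(0 : E n)‖ < r := by simpa using h.pos
  obtain ⟨h1, h2⟩ := h'.mem le_rfl hm
  have hm' : A' (τ' (A 0)) ∈ A '' ball 0 r := by
    rw [h2]
    exact ⟨0, mem_ball_zero_iff.2 h0, rfl⟩
  refine ⟨rfl, ?_, ?_, h.inv_aux h' h0 hm, h'.inv_aux h h1 hm', h.lip_aux h' h0 hm,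
    h'.lip_aux h h1 hm'⟩
  · refine LD.comp_fun ?_ (h.ld 0 h0)
    have h3 := h'.ldτ h1
    rwa [h2] at h3
  · refine LD.comp_fun ?_ (h'.ld _ h1)
    rw [h2]
    exact h.ldτ h0

theorem Ch.trans_id (h : Ch n κ A τ r) :
    Trans n (κ ^ 2) (fun z : E n => z) (fun z : E n => z) (0 : E n) := by
  have h0 : ‖(0 : E n)‖ < r := by simpa using h.pos
  have h1 : ∀ᶠ z : E n in 𝓝 (0 : E n), ∀ᶠ z' : E n in 𝓝 z, ‖z' - z‖ ≤ κ ^ 2 * ‖z' - z‖ := by
    have h2 : ∀ᶠ z : E n in 𝓝 (0 : E n), ‖z‖ < r :=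
      continuous_norm.continuousAt.eventually_lt continuousAt_const h0
    filter_upwards [h2.eventually_nhds] with z hz
    filter_upwards [hz] with z' hz'
    have h9 := (h.lip _ _ hz' hz.self_of_nhds).1
    have h10 := (h.lip _ _ hz' hz.self_of_nhds).2
    rcases le_or_gt 0 κ with hκ | hκ
    · calc ‖z' - z‖ ≤ κ * dist (A z') (A z) := h9
        _ ≤ κ * (κ * ‖z' - z‖) := mul_le_mul_of_nonneg_left h10 hκ
        _ = κ ^ 2 * ‖z' - z‖ := by ring
    · have h11 : κ * dist (A z') (A z) ≤ 0 := mul_nonpos_of_nonpos_of_nonneg hκ.le dist_nonneg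
      have h12 : 0 ≤ κ ^ 2 * ‖z' - z‖ := by positivity
      linarith
  exact ⟨rfl, LD.id _, LD.id _, Eventually.of_forall fun _ => rfl,
    Eventually.of_forall fun _ => rfl, h1, h1⟩

end

/-! ### finitely many positive numbers -/

theorem exists_min {K : ℕ} (a : Fin K → ℝ) (h : ∀ j, 0 < a j) : ∃ m : ℝ, 0 < m ∧ ∀ j, m ≤ a j := by
  have h1 : ∀ᶠ m in 𝓝[>] (0 : ℝ), 0 < m ∧ ∀ j, m ≤ a j := by
    refine (eventually_mem_nhdsWithin).and (eventually_all.2 fun j => ?_)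
    filter_upwards [Ioc_mem_nhdsGT (h j)] with m hm
    exact hm.2
  exact h1.exists

end Pool.Agent.Y306.NAG
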