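import Pool.Agent.Y306.NA.G2

/-!
# Project NA, the globalization: the local statement
-/

set_option autoImplicit false

open Set Filter Topology Metric Function MeasureTheory
open scoped Manifold ContDiff

noncomputable section

namespace Pool.Agent.Y306.NAG

open Pool.Agent.Y522 Pool.Agent.Y522.NA

/-- the conclusion of `StLoc` for given constants -/
def LocC (n : ℕ) (κ ε : ℝ) : Prop :=
  ∀ (q K : ℕ) (g : E n → E n) (E0 : E n → E q)
    (Ψ : E q → E n) (T S : Fin K → E n → E n) (y : Fin K → E n) (χ : Fin K → E n → ℝ),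
    (∀ᶠ z in 𝓝 (0 : E n), ContinuousAt g z) → (∃ ρ : ℝ, 0 < ρ ∧ NAff n ε ρ g) →
    (∀ᶠ w in 𝓝 (g 0), ContDiffAt ℝ ∞ E0 w) → (∀ᶠ w in 𝓝 (E0 (g 0)), ContDiffAt ℝ ∞ Ψ w) →
    (∀ᶠ w in 𝓝 (g 0), Ψ (E0 w) = w) → (∀ j, Trans n κ (T j) (S j) (y j)) →
    (∀ j, ∀ᶠ z in 𝓝 (0 : E n), ContDiffAt ℝ ∞ (χ j) z ∧ 0 ≤ χ j z) →
    (∀ᶠ z in 𝓝 (0 : E n), ∑ j, χ j z = 1) →
    ∃ ρ c₀ : ℝ, 0 < ρ ∧ 0 < c₀ ∧ ∀ z : E n, ‖z‖ < ρ → ∀ c : ℝ, 0 < c → c ≤ c₀ →
      ContDiffAt ℝ ∞ (Fl n q K g E0 T S χ c) z ∧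
      LD n (fun z => Ψ (Fl n q K g E0 T S χ c z)) z

theorem loc {n : ℕ} {κ ε : ℝ} (hL : LocC n (κ ^ 2) ε) {X : Type} [MetricSpace X]
    [ChartedSpace (E n) X] [CompactSpace X] {Y : Type} [TopologicalSpace Y]
    [ChartedSpace (E n) Y] {q : ℕ} {e : Y → E q} {π : E q → Y} (hT : Tub n q Y e π)
    (f : C(X, Y)) {K : ℕ} {A : Fin K → E n → X} {τ : Fin K → X → E n}
    {r : Fin K → ℝ} (hC : ∀ j, Ch n κ (A j) (τ j) (r j)) {χ : Fin K → X → ℝ}
    (hχs : ∀ j, ContMDiff (𝓡 n) 𝓘(ℝ, ℝ) ∞ (χ j))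
    (hχ0 : ∀ j x, 0 ≤ χ j x) (hχ1 : ∀ x, ∑ j, χ j x = 1)
    (hχt : ∀ j, tsupport (χ j) ⊆ A j '' ball 0 (r j / 2)) (x : X) (hx : NAffAt n κ ε f x) :
    ∃ U ∈ 𝓝 x, ∃ c₀ : ℝ, 0 < c₀ ∧ ∀ x' ∈ U, ∀ c : ℝ, 0 < c → c ≤ c₀ →
      ContinuousAt (FF n q K f e A τ χ c) x' ∧
      LD n (fun x'' => π (FF n q K f e A τ χ c x'')) x' := by
  obtain ⟨A₀, B, rfl, hA₀, hB, ρ, hρ, hl, hn⟩ := hx
  obtain ⟨α, r₀, hr₀, h₀⟩ := exists_ch hA₀ hρ hl
  obtain ⟨b, hb, hbf, hbB, hBb⟩ := hB.exists_inverse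
  have h00 : ‖(0 : E n)‖ < r₀ := by simpa using h₀.pos
  have hnear : ∀ᶠ z : E n in 𝓝 (0 : E n), ‖z‖ < r₀ :=
    continuous_norm.continuousAt.eventually_lt continuousAt_const h00
  have he : Continuous e := hT.smooth.continuous
  have hfA : ContinuousAt (fun z => f (A₀ z)) 0 :=
    f.continuous.continuousAt.comp (h₀.continuousAt h00)
  have hπc : ContinuousAt π (e (f (A₀ 0))) := (hT.retr (f (A₀ 0))).self_of_nhds.continuousAt
  have hπt : Tendsto π (𝓝 (e (f (A₀ 0)))) (𝓝 (f (A₀ 0))) := by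
    have h1 := hπc.tendsto
    rwa [hT.inv] at h1
  -- the data of the local theorem
  set g : E n → E n := fun z => B (f (A₀ z)) with hg
  set E0 : E n → E q := fun w => e (b w) with hE0
  set Ψ : E q → E n := fun w => B (π w) with hΨ
  have hg0 : g 0 = B (f (A₀ 0)) := rfl
  have hE0g : E0 (g 0) = e (f (A₀ 0)) := by rw [hE0, hg0]; simp only [hbf]
  have ca : ∀ᶠ z in 𝓝 (0 : E n), ContinuousAt g z := by
    have h1 : ∀ᶠ z in 𝓝 (0 : E n), LD n B (f (A₀ z)) := hfA.tendsto.eventually hB.eventually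
    filter_upwards [hnear, h1] with z hz hz'
    have h2 : ContinuousAt (fun z => f (A₀ z)) z :=
      f.continuous.continuousAt.comp (h₀.continuousAt hz)
    exact ContinuousAt.comp (f := fun z => f (A₀ z)) hz'.continuousAt h2
  have cc : ∀ᶠ w in 𝓝 (g 0), ContDiffAt ℝ ∞ E0 w := by
    filter_upwards [hb.eventually] with w hw
    refine contMDiffAt_iff_contDiffAt.1 ?_
    exact hT.smooth.contMDiffAt.comp w hw.contMDiffAt
  have cd : ∀ᶠ w in 𝓝 (E0 (g 0)), ContDiffAt ℝ ∞ Ψ w := by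
    rw [hE0g]
    filter_upwards [hT.retr (f (A₀ 0)), hπt.eventually hB.eventually] with w hw hw'
    refine contMDiffAt_iff_contDiffAt.1 ?_
    exact hw'.contMDiffAt.comp w hw
  have ce : ∀ᶠ w in 𝓝 (g 0), Ψ (E0 w) = w := by
    filter_upwards [hBb] with w hw
    simp only [hΨ, hE0, hT.inv, hw]
  -- transition maps
  classical
  set J : Fin K → Prop := fun j => A₀ 0 ∈ tsupport (χ j) with hJ
  set T : Fin K → E n → E n := fun j => if J j then (fun z => τ j (A₀ z)) else (fun z => z) with hTd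
  set S : Fin K → E n → E n := fun j => if J j then (fun w => α (A j w)) else (fun z => z) with hSd
  set y : Fin K → E n := fun j => if J j then τ j (A₀ 0) else 0 with hyd
  have hmem : ∀ j, J j → A₀ 0 ∈ A j '' ball 0 (r j) := by
    intro j hj
    obtain ⟨z, hz, hzx⟩ := hχt j hj
    have hrp := (hC j).pos
    refine ⟨z, ?_, hzx⟩
    rw [mem_ball_zero_iff] at hz ⊢
    linarith
  have cf : ∀ j, Trans n (κ ^ 2) (T j) (S j) (y j) := by
    intro j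
    by_cases hj : J j
    · simp only [hTd, hSd, hyd, if_pos hj]
      exact h₀.trans (hC j) (hmem j hj)
    · simp only [hTd, hSd, hyd, if_neg hj]
      exact h₀.trans_id
  have cg : ∀ j, ∀ᶠ z in 𝓝 (0 : E n), ContDiffAt ℝ ∞ (fun z => χ j (A₀ z)) z ∧
      0 ≤ χ j (A₀ z) := by
    intro j
    filter_upwards [hnear] with z hz
    refine ⟨?_, hχ0 _ _⟩
    refine contMDiffAt_iff_contDiffAt.1 ?_
    exact (hχs j).contMDiffAt.comp z (h₀.ld z hz).contMDiffAt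
  obtain ⟨ρ₁, c₁, hρ₁, hc₁, hL1⟩ := hL q K g E0 Ψ T S y (fun j z => χ j (A₀ z)) ca ⟨ρ, hρ, hn⟩ cc
    cd ce cf cg (Eventually.of_forall fun z => hχ1 (A₀ z))
  -- the local form of the mollification
  have hterm : ∀ j, ∃ ρ' : ℝ, 0 < ρ' ∧ ∀ z : E n, ‖z‖ < ρ' → ∀ c : ℝ, 0 < c → c ≤ ρ' →
      χ j (A₀ z) • TermX n q f e (A j) (τ j) c (A₀ z) =
        χ j (A₀ z) • Term n q g E0 (T j) (S j) c z := by
    intro j
    by_cases hj : J j
    · obtain ⟨ρ', hρ', h1⟩ := term_eq (e := e) f h₀ (hC j) (hmem j hj) (B := B) (b := b) hbB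
      refine ⟨ρ', hρ', fun z hz c hc hcc => ?_⟩
      rw [h1 z hz c hc hcc]
      simp only [hTd, hSd, if_pos hj]
      rfl
    · have h1 : ∀ᶠ z in 𝓝 (0 : E n), A₀ z ∉ tsupport (χ j) :=
        (h₀.continuousAt h00).eventually_mem ((isClosed_tsupport (χ j)).isOpen_compl.mem_nhds hj)
      obtain ⟨ρ', hρ', h2⟩ := Metric.eventually_nhds_iff.1 h1
      refine ⟨ρ', hρ', fun z hz c hc hcc => ?_⟩
      have h3 : χ j (A₀ z) = 0 := image_eq_zero_of_notMem_tsupport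
        (h2 (by rwa [dist_zero_right]))
      rw [h3, zero_smul, zero_smul]
  choose ρj hρj htj using hterm
  obtain ⟨ρ₂, hρ₂, hρ₂j⟩ := exists_min ρj hρj
  have hFF : ∀ z : E n, ‖z‖ < ρ₂ → ∀ c : ℝ, 0 < c → c ≤ ρ₂ → FF n q K f e A τ χ c (A₀ z) =
      Fl n q K g E0 T S (fun j z => χ j (A₀ z)) c z := by
    intro z hz c hc hcc
    unfold FF Fl
    exact Finset.sum_congr rfl fun j _ =>
      htj j z (lt_of_lt_of_le hz (hρ₂j j)) c hc (hcc.trans (hρ₂j j))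
  -- near the point `e (f x)`
  have hP : ∀ᶠ w in 𝓝 (e (f (A₀ 0))), LD n b (B (π w)) ∧ b (B (π w)) = π w := by
    have h1 : Tendsto (fun w => B (π w)) (𝓝 (e (f (A₀ 0)))) (𝓝 (B (f (A₀ 0)))) :=
      hB.continuousAt.tendsto.comp hπt
    exact (h1.eventually hb.eventually).and (hπt.eventually hbB)
  obtain ⟨δ, hδ, hPδ⟩ := Metric.eventually_nhds_iff.1 hP
  obtain ⟨c₂, hc₂, hclose⟩ := close_ch he f hC hχ0 hχ1 hχt (δ / 2) (half_pos hδ)
  -- the neighbourhood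
  have hα0 : α (A₀ 0) = 0 := h₀.inv 0 h00
  have hαc : ContinuousAt α (A₀ 0) := (h₀.ldτ h00).continuousAt
  have hV : ∀ᶠ x' in 𝓝 (A₀ 0), ‖e (f x') - e (f (A₀ 0))‖ < δ / 2 ∧ ‖α x'‖ < min ρ₁ ρ₂ ∧
      A₀ (α x') = x' ∧ LD n α x' := by
    have h1 : ∀ᶠ x' in 𝓝 (A₀ 0), ‖e (f x') - e (f (A₀ 0))‖ < δ / 2 := by
      have h2 : ContinuousAt (fun x' => ‖e (f x') - e (f (A₀ 0))‖) (A₀ 0) := by
        have h3 : Continuous (fun x' => ‖e (f x') - e (f (A₀ 0))‖) :=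
          ((he.comp f.continuous).sub continuous_const).norm
        exact h3.continuousAt
      refine h2.eventually_lt continuousAt_const ?_
      simpa using half_pos hδ
    have h2 : ∀ᶠ x' in 𝓝 (A₀ 0), ‖α x'‖ < min ρ₁ ρ₂ := by
      refine hαc.norm.eventually_lt continuousAt_const ?_
      rw [hα0, norm_zero]
      exact lt_min hρ₁ hρ₂
    have h3 : ∀ᶠ x' in 𝓝 (A₀ 0), A₀ (α x') = x' := by
      filter_upwards [(h₀.isOpen_image le_rfl).mem_nhds ⟨0, mem_ball_zero_iff.2 h00, rfl⟩]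
        with x' hx'
      exact h₀.right hx'
    filter_upwards [h1, h2, h3, (h₀.ldτ h00).eventually] with x' a1 a2 a3 a4
    exact ⟨a1, a2, a3, a4⟩
  refine ⟨_, hV.eventually_nhds, min (min c₁ ρ₂) c₂, lt_min (lt_min hc₁ hρ₂) hc₂, ?_⟩
  intro x' hx' c hc hcc
  have hcc1 : c ≤ c₁ := hcc.trans ((min_le_left _ _).trans (min_le_left _ _))
  have hcc2 : c ≤ ρ₂ := hcc.trans ((min_le_left _ _).trans (min_le_right _ _))
  have hcc3 : c ≤ c₂ := hcc.trans (min_le_right _ _)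
  have hx'' : ∀ᶠ x'' in 𝓝 x', ‖e (f x'') - e (f (A₀ 0))‖ < δ / 2 ∧ ‖α x''‖ < min ρ₁ ρ₂ ∧
      A₀ (α x'') = x'' ∧ LD n α x'' := hx'
  have hFeq : ∀ᶠ x'' in 𝓝 x', FF n q K f e A τ χ c x'' =
      Fl n q K g E0 T S (fun j z => χ j (A₀ z)) c (α x'') := by
    filter_upwards [hx''] with x'' h1
    rw [← hFF (α x'') (lt_of_lt_of_le h1.2.1 (min_le_right _ _)) c hc hcc2, h1.2.2.1]
  have hPx : ∀ᶠ x'' in 𝓝 x', LD n b (B (π (FF n q K f e A τ χ c x''))) ∧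
      b (B (π (FF n q K f e A τ χ c x''))) = π (FF n q K f e A τ χ c x'') := by
    filter_upwards [hx''] with x'' h1
    apply hPδ
    have h2 := hclose c hc hcc3 x''
    have h3 := h1.1
    rw [dist_eq_norm]
    calc ‖FF n q K f e A τ χ c x'' - e (f (A₀ 0))‖
        = ‖(FF n q K f e A τ χ c x'' - e (f x'')) + (e (f x'') - e (f (A₀ 0)))‖ := by
          congr 1; abel
      _ ≤ ‖FF n q K f e A τ χ c x'' - e (f x'')‖ + ‖e (f x'') - e (f (A₀ 0))‖ :=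
          norm_add_le _ _
      _ < δ := by linarith
  obtain ⟨h1, h2, h3, h4⟩ := hx''.self_of_nhds
  obtain ⟨h5, h6⟩ := hL1 (α x') (lt_of_lt_of_le h2 (min_le_left _ _)) c hc hcc1
  refine ⟨?_, ?_⟩
  · have h7 : ContinuousAt (fun x'' => Fl n q K g E0 T S (fun j z => χ j (A₀ z)) c (α x'')) x' :=
      ContinuousAt.comp (f := α) h5.continuousAt h4.continuousAt
    exact h7.congr (hFeq.mono fun _ h => h.symm)
  · have h7 : LD n (fun x'' => b (Ψ (Fl n q K g E0 T S (fun j z => χ j (A₀ z)) c (α x'')))) x' := by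
      refine LD.comp_fun (g := b) ?_ (LD.comp_fun (g := fun z =>
        Ψ (Fl n q K g E0 T S (fun j z => χ j (A₀ z)) c z)) h6 h4)
      have h8 := hPx.self_of_nhds.1
      rwa [hFeq.self_of_nhds] at h8
    refine h7.congr ?_
    filter_upwards [hFeq, hPx] with x'' h8 h9
    rw [← h8]
    exact h9.2.symm

end Pool.Agent.Y306.NAG
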