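import Pool.Agent.Y306.NA.G3

/-!
# Project NA: globalization of the smoothing of nearly affine maps
-/

set_option autoImplicit false

open Set Filter Topology Metric Function MeasureTheory
open scoped Manifold ContDiff

noncomputable section

namespace Pool.Agent.Y306.NAG

open Pool.Agent.Y522 Pool.Agent.Y522.NA

/-- charts and a subordinate partition of unity -/
theorem exists_charts {n : ℕ} {κ : ℝ} {X : Type} [MetricSpace X] [CompactSpace X]
    [ChartedSpace (E n) X] [IsManifold (𝓡 n) ∞ X]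
    (h : ∀ x : X, ∃ (A : E n → X) (τ : X → E n) (r : ℝ), A 0 = x ∧ Ch n κ A τ r) :
    ∃ (K : ℕ) (A : Fin K → E n → X) (τ : Fin K → X → E n) (r : Fin K → ℝ) (χ : Fin K → X → ℝ),
      (∀ j, Ch n κ (A j) (τ j) (r j)) ∧ (∀ j, ContMDiff (𝓡 n) 𝓘(ℝ, ℝ) ∞ (χ j)) ∧
      (∀ j x, 0 ≤ χ j x) ∧ (∀ x, ∑ j, χ j x = 1) ∧
      ∀ j, tsupport (χ j) ⊆ A j '' ball 0 (r j / 2) := by
  choose A τ r hA hC using h
  have hopen : ∀ x, IsOpen (A x '' ball 0 (r x / 2)) := fun x =>
    (hC x).isOpen_image (by have := (hC x).pos; linarith)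
  obtain ⟨t, ht⟩ := CompactSpace.elim_nhds_subcover (fun x => A x '' ball 0 (r x / 2))
    (fun x => (hopen x).mem_nhds ⟨0, mem_ball_self (half_pos (hC x).pos), hA x⟩)
  set σ : Fin t.card → X := fun j => (t.equivFin.symm j : X) with hσ
  obtain ⟨χ, hχ⟩ := SmoothPartitionOfUnity.exists_isSubordinate (𝓡 n) (isClosed_univ (X := X))
    (fun j : Fin t.card => A (σ j) '' ball 0 (r (σ j) / 2)) (fun j => hopen (σ j)) (by
      intro x _
      have hx : x ∈ ⋃ x ∈ t, A x '' ball 0 (r x / 2) := by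
        rw [ht]
        trivial
      simp only [mem_iUnion, exists_prop] at hx ⊢
      obtain ⟨x', hx', hxx⟩ := hx
      refine ⟨t.equivFin ⟨x', hx'⟩, ?_⟩
      simp only [hσ, Equiv.symm_apply_apply]
      exact hxx)
  refine ⟨t.card, fun j => A (σ j), fun j => τ (σ j), fun j => r (σ j), fun j => χ j,
    fun j => hC (σ j), fun j => (χ j).contMDiff, fun j x => χ.nonneg j x, fun x => ?_, hχ⟩
  have h1 := χ.sum_eq_one (mem_univ x)
  rwa [finsum_eq_sum_of_fintype] at h1

theorem HomIn.of_fun {X Y : Type} [TopologicalSpace X] [TopologicalSpace Y] {O : Set (X × Y)}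
    {f g : C(X, Y)} (H : unitInterval × X → Y) (hc : Continuous H)
    (h0 : ∀ x, H (0, x) = f x) (h1 : ∀ x, H (1, x) = g x) (hO : ∀ s x, (x, H (s, x)) ∈ O) :
    Pool.Agent.Y66.CM.HomIn O f g :=
  ⟨{ toFun := H
     continuous_toFun := hc
     map_zero_left := h0
     map_one_left := h1
     prop' := fun t x => hO t x }⟩

/-- a uniform neighbourhood of the graph -/
theorem exists_tube {n q : ℕ} {X : Type} [MetricSpace X] [CompactSpace X] {Y : Type}
    [TopologicalSpace Y] [ChartedSpace (E n) Y] {e : Y → E q} {π : E q → Y}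
    (hT : Tub n q Y e π) (f : C(X, Y)) {O : Set (X × Y)} (hO : IsOpen O)
    (hfO : ∀ x, (x, f x) ∈ O) : ∃ δ : ℝ, 0 < δ ∧ ∀ (x : X) (w : E q), ‖w - e (f x)‖ < δ →
      ContinuousAt π w ∧ (x, π w) ∈ O := by
  have he : Continuous e := hT.smooth.continuous
  set S : Set (X × E q) := {p | ContinuousAt π p.2 ∧ (p.1, π p.2) ∈ O} with hS
  have h1 : ∀ x, S ∈ 𝓝 (x, e (f x)) := by
    intro x
    have h2 : ∀ᶠ p : X × E q in 𝓝 (x, e (f x)), ContinuousAt π p.2 := by
      have h3 : Tendsto (fun p : X × E q => p.2) (𝓝 (x, e (f x))) (𝓝 (e (f x))) :=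
        continuousAt_snd
      exact h3.eventually ((hT.retr (f x)).mono fun w hw => hw.continuousAt)
    have h4 : ∀ᶠ p : X × E q in 𝓝 (x, e (f x)), (p.1, π p.2) ∈ O := by
      have h5 : ContinuousAt π (e (f x)) := (hT.retr (f x)).self_of_nhds.continuousAt
      have h6 : ContinuousAt (fun p : X × E q => (p.1, π p.2)) (x, e (f x)) := by
        refine ContinuousAt.prodMk continuousAt_fst ?_
        exact ContinuousAt.comp (f := fun p : X × E q => p.2) h5 continuousAt_snd
      refine h6.eventually_mem ?_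
      simp only [hT.inv]
      exact hO.mem_nhds (hfO x)
    exact h2.and h4
  have h2 : IsCompact (range fun x => (x, e (f x))) :=
    isCompact_range (continuous_id.prodMk (he.comp f.continuous))
  obtain ⟨δ, hδ, hδS⟩ := h2.exists_thickening_subset_open (isOpen_interior (s := S)) (by
    rintro _ ⟨x, rfl⟩
    exact mem_interior_iff_mem_nhds.2 (h1 x))
  refine ⟨δ, hδ, fun x w hw => ?_⟩
  have h3 : (x, w) ∈ thickening δ (range fun x => (x, e (f x))) := by
    rw [mem_thickening_iff]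
    refine ⟨(x, e (f x)), ⟨x, rfl⟩, ?_⟩
    rw [Prod.dist_eq]
    simp only [dist_self]
    rw [dist_eq_norm]
    exact max_lt hδ hw
  have h4 : (x, w) ∈ S := interior_subset (hδS h3)
  exact h4

/-- Nearly affine maps of compact manifolds are homotopic, near their graphs, to local
diffeomorphisms, given the local theorem. -/
theorem glob (hL : StLoc) : StNA := by
  intro n κ
  obtain ⟨ε, hε, hLε⟩ := hL n (κ ^ 2)
  have hLC : LocC n (κ ^ 2) ε := hLε
  refine ⟨ε, hε, ?_⟩
  intro X Y _ _ _ _ _ _ _ _ q e π hT f hf O hO hfO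
  have he : Continuous e := hT.smooth.continuous
  obtain ⟨K, A, τ, r, χ, hC, hχs, hχ0, hχ1, hχt⟩ := exists_charts (n := n) (κ := κ) (X := X) (by
    intro x
    obtain ⟨A₀, B, hx, hA₀, hB, ρ, hρ, hl, hn⟩ := hf x
    obtain ⟨α, r₀, hr₀, h₀⟩ := exists_ch hA₀ hρ hl
    exact ⟨A₀, α, r₀, hx, h₀⟩)
  have hloc := fun x => loc hLC hT f hC hχs hχ0 hχ1 hχt x (hf x)
  choose U hU c₀ hc₀ hloc using hloc
  obtain ⟨t, ht⟩ := CompactSpace.elim_nhds_subcover U hU
  obtain ⟨c₁, hc₁, hc₁t⟩ := exists_min (fun j : Fin t.card => c₀ (t.equivFin.symm j : X))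
    (fun j => hc₀ _)
  obtain ⟨δ, hδ, hδO⟩ := exists_tube hT f hO hfO
  obtain ⟨c₂, hc₂, hclose⟩ := close_ch he f hC hχ0 hχ1 hχt (δ / 2) (half_pos hδ)
  set c : ℝ := min c₁ c₂ with hc
  have hc0 : 0 < c := lt_min hc₁ hc₂
  have hcl := hclose c hc0 (min_le_right _ _)
  set F : X → E q := FF n q K f e A τ χ c with hF
  have hFl : ∀ x, ContinuousAt F x ∧ LD n (fun x => π (F x)) x := by
    intro x
    have hx : x ∈ ⋃ x ∈ t, U x := by
      rw [ht]
      trivial
    simp only [mem_iUnion, exists_prop] at hx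
    obtain ⟨x', hx', hxx⟩ := hx
    refine hloc x' x hxx c hc0 ?_
    have h1 := hc₁t (t.equivFin ⟨x', hx'⟩)
    simp only [Equiv.symm_apply_apply] at h1
    exact (min_le_left _ _).trans h1
  have hFc : Continuous F := continuous_iff_continuousAt.2 fun x => (hFl x).1
  have hf'c : Continuous (fun x => π (F x)) :=
    continuous_iff_continuousAt.2 fun x => (hFl x).2.continuousAt
  refine ⟨⟨fun x => π (F x), hf'c⟩, ?_, fun x => (hFl x).2⟩
  -- the homotopy
  set G : unitInterval × X → E q := fun p => e (f p.2) + (p.1 : ℝ) • (F p.2 - e (f p.2)) with hG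
  have hGc : Continuous G := by
    have h1 : Continuous fun p : unitInterval × X => e (f p.2) :=
      he.comp (f.continuous.comp continuous_snd)
    have h2 : Continuous fun p : unitInterval × X => F p.2 := hFc.comp continuous_snd
    have h3 : Continuous fun p : unitInterval × X => (p.1 : ℝ) :=
      continuous_subtype_val.comp continuous_fst
    exact h1.add (h3.smul (h2.sub h1))
  have hGn : ∀ p, ‖G p - e (f p.2)‖ < δ := by
    intro p
    have h1 : G p - e (f p.2) = (p.1 : ℝ) • (F p.2 - e (f p.2)) := by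
      simp only [hG]
      abel
    rw [h1, norm_smul, Real.norm_eq_abs, abs_of_nonneg p.1.2.1]
    have h2 := hcl p.2
    have h3 : (p.1 : ℝ) * ‖F p.2 - e (f p.2)‖ ≤ 1 * ‖F p.2 - e (f p.2)‖ :=
      mul_le_mul_of_nonneg_right p.1.2.2 (norm_nonneg _)
    linarith
  refine HomIn.of_fun (fun p => π (G p)) ?_ ?_ ?_ ?_
  · refine continuous_iff_continuousAt.2 fun p => ?_
    exact ContinuousAt.comp (f := G) (hδO p.2 (G p) (hGn p)).1 hGc.continuousAt
  · intro x
    have e0 : ((0 : unitInterval) : ℝ) = 0 := rfl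
    simp only [hG, e0, zero_smul, add_zero, hT.inv]
  · intro x
    have e1 : ((1 : unitInterval) : ℝ) = 1 := rfl
    simp only [hG, e1, one_smul, add_sub_cancel]
    rfl
  · intro s x
    exact (hδO x (G (s, x)) (hGn (s, x))).2

end Pool.Agent.Y306.NAG
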